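import Mathlib

/-!
# Products of maps along pairs of words

`ev l x y r` applies the maps `l_i (x_i) (y_i)` one after the other to the state `r`.
-/

set_option autoImplicit false

open Function

namespace Pool.Agent.H64.BW

/-- a program: for every position and every pair of digits a self-map of the set `R` of states -/
abbrev Prog (R : Type) := List (Bool → Bool → R → R)

/-- the state after reading the digits of `x` and `y` -/
def ev {R : Type} : Prog R → List Bool → List Bool → R → R
  | t :: l, a :: x, b :: y, r => ev l x y (t a b r)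
  | _, _, _, r => r

/-- the map if all digits are `false` -/
def E {R : Type} : Prog R → R → R
  | [], r => r
  | t :: l, r => E l (t false false r)

section basic

variable {R : Type}

theorem ev_nil (x y : List Bool) (r : R) : ev [] x y r = r := by
  cases x <;> cases y <;> rfl

theorem ev_append (l₁ l₂ : Prog R) (x₁ y₁ x₂ y₂ : List Bool) (hx : x₁.length = l₁.length)
    (hy : y₁.length = l₁.length) (r : R) :
    ev (l₁ ++ l₂) (x₁ ++ x₂) (y₁ ++ y₂) r = ev l₂ x₂ y₂ (ev l₁ x₁ y₁ r) := by
  induction l₁ generalizing x₁ y₁ r with
  | nil =>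
    have h1 : x₁ = [] := List.length_eq_zero_iff.1 hx
    have h2 : y₁ = [] := List.length_eq_zero_iff.1 hy
    subst h1 h2
    rfl
  | cons t l ih =>
    cases x₁ with
    | nil => simp at hx
    | cons a x =>
      cases y₁ with
      | nil => simp at hy
      | cons b y =>
        simp only [List.length_cons, Nat.add_right_cancel_iff] at hx hy
        exact ih x y hx hy (t a b r)

theorem E_append (l₁ l₂ : Prog R) (r : R) : E (l₁ ++ l₂) r = E l₂ (E l₁ r) := by
  induction l₁ generalizing r with
  | nil => rfl
  | cons t l ih => exact ih _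

/-- the diagonal maps do not depend on the digit -/
def Diag (l : Prog R) : Prop := ∀ t ∈ l, t true true = t false false

theorem Diag.append {l₁ l₂ : Prog R} (h1 : Diag l₁) (h2 : Diag l₂) : Diag (l₁ ++ l₂) := by
  intro t ht
  rcases List.mem_append.1 ht with h | h
  · exact h1 t h
  · exact h2 t h

theorem ev_diag (l : Prog R) (hl : Diag l) (x : List Bool) (hx : x.length = l.length) (r : R) :
    ev l x x r = E l r := by
  induction l generalizing x r with
  | nil => exact ev_nil _ _ _
  | cons t l ih =>
    cases x with
    | nil => simp at hx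
    | cons a x =>
      simp only [List.length_cons, Nat.add_right_cancel_iff] at hx
      have h1 : t a a = t false false := by
        cases a
        · rfl
        · exact hl t List.mem_cons_self
      change ev l x x (t a a r) = E l (t false false r)
      rw [ih (fun t ht => hl t (List.mem_cons_of_mem _ ht)) x hx, h1]

end basic

/-- `USim l l'`: the program `l'` can be simulated by `l` (uniformly in the state). -/
def USim {R : Type} (l l' : Prog R) : Prop :=
  ∃ ι : List Bool → List Bool,
    (∀ u, u.length = l'.length → (ι u).length = l.length) ∧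
    (∀ u v, u.length = l'.length → v.length = l'.length → ι u = ι v → u = v) ∧
    ∀ u v r, u.length = l'.length → v.length = l'.length → ev l (ι u) (ι v) r = ev l' u v r

/-- `Sim l r l' r'`: the program `l'` started at `r'` can be simulated by `l` started at `r`. -/
def Sim {R R' : Type} (l : Prog R) (r : R) (l' : Prog R') (r' : R') : Prop :=
  ∃ (ι : List Bool → List Bool) (post : R' → R),
    (∀ u, u.length = l'.length → (ι u).length = l.length) ∧
    (∀ u v, u.length = l'.length → v.length = l'.length → ι u = ι v → u = v) ∧
    ∀ u v, u.length = l'.length → v.length = l'.length →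
      ev l (ι u) (ι v) r = post (ev l' u v r')

theorem USim.sim {R : Type} {l l' : Prog R} (h : USim l l') (r : R) : Sim l r l' r := by
  obtain ⟨ι, a1, a2, a3⟩ := h
  exact ⟨ι, id, a1, a2, fun u v hu hv => a3 u v r hu hv⟩

theorem USim.trans {R : Type} {l l' l'' : Prog R} (h1 : USim l l') (h2 : USim l' l'') :
    USim l l'' := by
  obtain ⟨ι, a1, a2, a3⟩ := h1
  obtain ⟨κ, b1, b2, b3⟩ := h2
  refine ⟨ι ∘ κ, fun u hu => a1 _ (b1 u hu), fun u v hu hv h => ?_, fun u v r hu hv => ?_⟩
  · exact b2 u v hu hv (a2 _ _ (b1 u hu) (b1 v hv) h)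
  · exact (a3 _ _ r (b1 u hu) (b1 v hv)).trans (b3 u v r hu hv)

theorem Sim.trans {R R' R'' : Type} {l : Prog R} {r : R} {l' : Prog R'} {r' : R'} {l'' : Prog R''}
    {r'' : R''} (h1 : Sim l r l' r') (h2 : Sim l' r' l'' r'') : Sim l r l'' r'' := by
  obtain ⟨ι, p, a1, a2, a3⟩ := h1
  obtain ⟨κ, q, b1, b2, b3⟩ := h2
  refine ⟨ι ∘ κ, p ∘ q, fun u hu => a1 _ (b1 u hu), fun u v hu hv h => ?_, fun u v hu hv => ?_⟩
  · exact b2 u v hu hv (a2 _ _ (b1 u hu) (b1 v hv) h)
  · exact (a3 _ _ (b1 u hu) (b1 v hv)).trans (congrArg p (b3 u v hu hv))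

theorem USim.refl {R : Type} (l : Prog R) : USim l l :=
  ⟨id, fun _ h => h, fun _ _ _ _ h => h, fun _ _ _ _ _ => rfl⟩

theorem USim.append {R : Type} {l₁ l₂ l₁' l₂' : Prog R} (h1 : USim l₁ l₁') (h2 : USim l₂ l₂') :
    USim (l₁ ++ l₂) (l₁' ++ l₂') := by
  obtain ⟨ι, a1, a2, a3⟩ := h1
  obtain ⟨κ, b1, b2, b3⟩ := h2
  have t1 : ∀ u : List Bool, u.length = (l₁' ++ l₂').length →
      (u.take l₁'.length).length = l₁'.length := by
    intro u hu
    rw [List.length_append] at hu
    rw [List.length_take]
    omega
  have t2 : ∀ u : List Bool, u.length = (l₁' ++ l₂').length →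
      (u.drop l₁'.length).length = l₂'.length := by
    intro u hu
    rw [List.length_append] at hu
    rw [List.length_drop]
    omega
  refine ⟨fun u => ι (u.take l₁'.length) ++ κ (u.drop l₁'.length), fun u hu => ?_,
    fun u v hu hv h => ?_, fun u v r hu hv => ?_⟩
  · rw [List.length_append, List.length_append, a1 _ (t1 u hu), b1 _ (t2 u hu)]
  · have hl : (ι (u.take l₁'.length)).length = (ι (v.take l₁'.length)).length := by
      rw [a1 _ (t1 u hu), a1 _ (t1 v hv)]
    obtain ⟨h1, h2⟩ := List.append_inj h hl
    have h3 := a2 _ _ (t1 u hu) (t1 v hv) h1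
    have h4 := b2 _ _ (t2 u hu) (t2 v hv) h2
    rw [← List.take_append_drop l₁'.length u, ← List.take_append_drop l₁'.length v, h3, h4]
  · rw [ev_append _ _ _ _ _ _ (a1 _ (t1 u hu)) (a1 _ (t1 v hv)), a3 _ _ _ (t1 u hu) (t1 v hv),
      b3 _ _ _ (t2 u hu) (t2 v hv), ← ev_append _ _ _ _ _ _ (t1 u hu) (t1 v hv),
      List.take_append_drop, List.take_append_drop]

/-- a block which simulates one step -/
theorem USim.block {R : Type} (l : Prog R) (t : Bool → Bool → R → R) (a : Bool → List Bool)
    (ha : ∀ i, (a i).length = l.length) (hne : a false ≠ a true)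
    (h : ∀ i j r, ev l (a i) (a j) r = t i j r) : USim l [t] := by
  refine ⟨fun u => a (u.headD false), fun u _ => ha _, fun u v hu hv he => ?_,
    fun u v r hu hv => ?_⟩
  · obtain ⟨i, rfl⟩ := List.length_eq_one_iff.1 hu
    obtain ⟨j, rfl⟩ := List.length_eq_one_iff.1 hv
    change a i = a j at he
    cases i <;> cases j
    · rfl
    · exact absurd he hne
    · exact absurd he.symm hne
    · rfl
  · obtain ⟨i, rfl⟩ := List.length_eq_one_iff.1 hu
    obtain ⟨j, rfl⟩ := List.length_eq_one_iff.1 hv
    exact h i j r

/-- a block which is fixed and acts as the identity -/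
theorem USim.skip {R : Type} (l : Prog R) (a : List Bool) (ha : a.length = l.length)
    (h : ∀ r, ev l a a r = r) : USim l [] := by
  refine ⟨fun _ => a, fun u _ => ha, fun u v hu hv _ => ?_, fun u v r _ _ => ?_⟩
  · rw [List.length_nil] at hu hv
    rw [List.length_eq_zero_iff.1 hu, List.length_eq_zero_iff.1 hv]
  · rw [ev_nil]
    exact h r

/-! ### Pigeonhole: making the system uniform -/

open scoped Classical in
theorem usim_filter {R : Type} (l : Prog R) (hl : ∀ t ∈ l, t false false = id)
    (c : Bool → Bool → R → R) : USim l (List.replicate (l.count c) c) := by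
  induction l with
  | nil => exact USim.refl _
  | cons t l ih =>
    have ih' := ih fun t ht => hl t (List.mem_cons_of_mem _ ht)
    by_cases h : t = c
    · subst h
      have hc : (t :: l).count t = 1 + l.count t := by simp [add_comm]
      rw [hc, List.replicate_add]
      exact USim.append (l₁ := [t]) (USim.refl [t]) ih'
    · have hc : (t :: l).count c = l.count c := by simp [h]
      rw [hc]
      refine USim.append (l₁ := [t]) (l₁' := []) (USim.skip [t] [false] rfl fun r => ?_) ih'
      change t false false r = r
      rw [hl t List.mem_cons_self]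
      rfl

/-- enough copies of one step -/
theorem usim_replicate_le {R : Type} (c : Bool → Bool → R → R) (hc : c false false = id)
    {m n : ℕ} (h : n ≤ m) : USim (List.replicate m c) (List.replicate n c) := by
  obtain ⟨k, rfl⟩ := Nat.exists_eq_add_of_le h
  rw [List.replicate_add]
  have h2 : USim (List.replicate k c) ([] : Prog R) := by
    induction k with
    | zero => exact USim.refl _
    | succ k ih =>
      refine USim.append (l₁ := [c]) (l₁' := []) (USim.skip [c] [false] rfl fun r => ?_)
        (ih (by omega))
      change c false false r = r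
      rw [hc]
      rfl
  have h3 := USim.append (USim.refl (List.replicate n c)) h2
  rwa [List.append_nil] at h3

/-- grouping -/
theorem usim_group {R : Type} (c d : Bool → Bool → R → R) (k : ℕ)
    (h : USim (List.replicate k c) [d]) (n : ℕ) :
    USim (List.replicate (n * k) c) (List.replicate n d) := by
  induction n with
  | zero => rw [Nat.zero_mul]; exact USim.refl _
  | succ n ih =>
    rw [Nat.succ_mul, List.replicate_add, List.replicate_succ']
    exact USim.append ih h

end Pool.Agent.H64.BW
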