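import Pool.Agent.H64.BW.Semi

/-!
# Rank-stable segments and the change of coordinates which makes the diagonal maps trivial
-/

set_option autoImplicit false

open Function

namespace Pool.Agent.H64.BW

section

variable {S : Type}

theorem ev_false (l : Prog S) (s : S) :
    ev l (List.replicate l.length false) (List.replicate l.length false) s = E l s := by
  induction l generalizing s with
  | nil => rfl
  | cons t l ih => exact ih _

/-- the middle part of a program -/
theorem Sim.mid (p l q : Prog S) (s : S) : Sim (p ++ l ++ q) s l (E p s) := by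
  refine ⟨fun u => List.replicate p.length false ++ u ++ List.replicate q.length false, E q,
    fun u hu => by simp [hu], fun u v hu hv h => ?_, fun u v hu hv => ?_⟩
  · have h1 := (List.append_inj h (by simp [hu, hv])).1
    exact (List.append_inj h1 (by simp)).2
  · rw [ev_append _ _ _ _ _ _ (by simp [hu]) (by simp [hv]),
      ev_append _ _ _ _ _ _ (by simp) (by simp), ev_false, ev_false]

variable [Finite S]

theorem rk_factor (p m q : Prog S) : rk (E (p ++ m ++ q)) ≤ rk (E m) := by
  have h : E (p ++ m ++ q) = E q ∘ (E m ∘ E p) := by
    funext s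
    rw [E_append, E_append]
    rfl
  rw [h]
  exact (rk_comp_le_right _ _).trans (rk_comp_le_left _ _)

theorem rk_le_card (f : S → S) : rk f ≤ Nat.card S := by
  rw [← Set.ncard_univ]
  exact Set.ncard_le_ncard (Set.subset_univ _) (Set.toFinite _)

/-- **Change of coordinates.** -/
theorem gauge (Y : Set S) (l : Prog S) (hdiag : Diag l)
    (hst : ∀ t ∈ l, rk (t false false) = Y.ncard ∧ ∀ i j s, t i j s ∈ Set.range (t false false)) :
    ∀ (X : Set S), Set.BijOn (E l) X Y →
    ∃ l' : Prog Y, l'.length = l.length ∧ (∀ t ∈ l', t false false = id ∧ t true true = id) ∧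
      ∀ (s : S) (_ : s ∈ X) (y : Y), (y : S) = E l s → ∀ u v : List Bool, u.length = l.length →
        v.length = l.length → ev l u v s = (ev l' u v y : Y) := by
  induction l with
  | nil =>
    intro X hX
    refine ⟨[], rfl, by simp, fun s hs y hy u v hu hv => ?_⟩
    rw [ev_nil, ev_nil, hy]
    rfl
  | cons t l ih =>
    intro X hX
    obtain ⟨hrk, hran⟩ := hst t List.mem_cons_self
    have hcomp : ∀ s, E (t :: l) s = E l (t false false s) := fun s => rfl
    -- the image of `X` under the first map
    have hinj : Set.InjOn (t false false) X := by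
      intro a ha b hb hab
      refine hX.injOn ha hb ?_
      rw [hcomp, hcomp, hab]
    have hXY : X.ncard = Y.ncard := by
      rw [← hX.image_eq]
      exact hX.injOn.ncard_image.symm
    have himg : t false false '' X = Set.range (t false false) := by
      refine Set.eq_of_subset_of_ncard_le (Set.image_subset_range _ _) ?_ (Set.toFinite _)
      rw [hinj.ncard_image, hXY]
      exact le_of_eq hrk
    have hX' : Set.BijOn (E l) (Set.range (t false false)) Y := by
      rw [← himg]
      refine ⟨?_, ?_, ?_⟩
      · rintro _ ⟨a, ha, rfl⟩
        exact hX.mapsTo ha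
      · rintro _ ⟨a, ha, rfl⟩ _ ⟨b, hb, rfl⟩ hab
        rw [hX.injOn ha hb hab]
      · intro y hy
        obtain ⟨a, ha, hay⟩ := hX.surjOn hy
        exact ⟨t false false a, ⟨a, ha, rfl⟩, hay⟩
    obtain ⟨l', hl', hid, hev⟩ := ih (fun t ht => hdiag t (List.mem_cons_of_mem _ ht))
      (fun t ht => hst t (List.mem_cons_of_mem _ ht)) _ hX'
    -- inverse of the total map
    have hinv : ∀ y : Y, ∃ s, s ∈ X ∧ E (t :: l) s = y := fun y => by
      obtain ⟨s, hs, h⟩ := hX.surjOn y.2
      exact ⟨s, hs, h⟩
    choose μ hμX hμ using hinv
    have hY : ∀ i j y, E l (t i j (μ y)) ∈ Y := fun i j y => hX'.mapsTo (hran i j _)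
    refine ⟨(fun i j y => ⟨E l (t i j (μ y)), hY i j y⟩) :: l', by simp [hl'], ?_, ?_⟩
    · intro t' ht'
      rcases List.mem_cons.1 ht' with h | h
      · subst h
        constructor
        · funext y
          exact Subtype.ext (hμ y)
        · funext y
          refine Subtype.ext ?_
          change E l (t true true (μ y)) = _
          rw [hdiag t List.mem_cons_self]
          exact hμ y
      · exact hid t' h
    · intro s hs y hy u v hu hv
      cases u with
      | nil => simp at hu
      | cons a u =>
        cases v with
        | nil => simp at hv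
        | cons b v =>
          simp only [List.length_cons, Nat.add_right_cancel_iff] at hu hv
          have h1 : μ y = s := hX.injOn (hμX y) hs ((hμ y).trans hy)
          exact hev (t a b s) (hran a b s) ⟨E l (t a b (μ y)), hY a b y⟩
            (congrArg (fun x => E l (t a b x)) h1) u v hu hv

/-! ### Rank-stable segments -/

omit [Finite S] in
theorem split_segs (k n : ℕ) (l : Prog S) (h : n * k ≤ l.length) :
    ∃ (segs : List (Prog S)) (post : Prog S), l = segs.flatten ++ post ∧ segs.length = n ∧
      ∀ g ∈ segs, g.length = k := by
  induction n generalizing l with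
  | zero => exact ⟨[], l, rfl, rfl, by simp⟩
  | succ n ih =>
    rw [Nat.succ_mul] at h
    obtain ⟨segs, post, h1, h2, h3⟩ := ih (l.drop k) (by rw [List.length_drop]; omega)
    refine ⟨l.take k :: segs, post, ?_, by simp [h2], ?_⟩
    · rw [List.flatten_cons, List.append_assoc, ← h1, List.take_append_drop]
    · intro g hg
      rcases List.mem_cons.1 hg with h | h
      · rw [h, List.length_take]; omega
      · exact h3 g h

omit [Finite S] in
theorem mem_flatten_factor (segs : List (Prog S)) (g : Prog S) (hg : g ∈ segs) :
    ∃ p q, segs.flatten = p ++ g ++ q := by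
  obtain ⟨a, b, rfl⟩ := List.append_of_mem hg
  exact ⟨a.flatten, b.flatten, by simp⟩

/-- lengths -/
def fl (n : ℕ) : ℕ → ℕ
  | 0 => n * 2
  | d + 1 => n * (fl n d + 1)

/-- stable segments -/
def Stable (segs : List (Prog S)) : Prop :=
  ∀ g ∈ segs, g ≠ [] ∧ rk (E g.tail) = rk (E segs.flatten)

theorem exists_stable (n d : ℕ) (l : Prog S) (hl : fl n d ≤ l.length)
    (hd : Nat.card S ≤ rk (E l) + d) :
    ∃ (pre : Prog S) (segs : List (Prog S)) (post : Prog S), l = pre ++ segs.flatten ++ post ∧
      segs.length = n ∧ Stable segs := by
  induction d generalizing l with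
  | zero =>
    obtain ⟨segs, post, h1, h2, h3⟩ := split_segs 2 n l hl
    refine ⟨[], segs, post, h1, h2, fun g hg => ?_⟩
    have hlen := h3 g hg
    obtain ⟨x, y, rfl⟩ := List.length_eq_two.1 hlen
    refine ⟨by simp, ?_⟩
    have e1 : rk (E l) ≤ rk (E segs.flatten) := by
      rw [h1]
      exact rk_factor [] _ _
    obtain ⟨p, q, hpq⟩ := mem_flatten_factor segs _ hg
    have e2 : rk (E segs.flatten) ≤ rk (E [y]) := by
      have : segs.flatten = (p ++ [x]) ++ [y] ++ q := by rw [hpq]; simp
      rw [this]
      exact rk_factor _ _ _
    have e3 := rk_le_card (E [y])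
    change rk (E [y]) = _
    omega
  | succ d ih =>
    obtain ⟨segs, post, h1, h2, h3⟩ := split_segs (fl n d + 1) n l hl
    have e1 : rk (E l) ≤ rk (E segs.flatten) := by
      rw [h1]
      exact rk_factor [] _ _
    by_cases hall : ∀ g ∈ segs, rk (E g.tail) = rk (E segs.flatten)
    · refine ⟨[], segs, post, h1, h2, fun g hg => ⟨?_, hall g hg⟩⟩
      intro h
      have := h3 g hg
      rw [h] at this
      simp at this
    · push Not at hall
      obtain ⟨g, hg, hne⟩ := hall
      have hlen := h3 g hg
      cases g with
      | nil => simp at hlen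
      | cons x g =>
        obtain ⟨p, q, hpq⟩ := mem_flatten_factor segs _ hg
        have e2 : rk (E segs.flatten) ≤ rk (E g) := by
          have : segs.flatten = (p ++ [x]) ++ g ++ q := by rw [hpq]; simp
          rw [this]
          exact rk_factor _ _ _
        change rk (E g) ≠ _ at hne
        obtain ⟨pre', segs', post', i1, i2, i3⟩ := ih g (by
          simp only [List.length_cons] at hlen
          omega) (by omega)
        refine ⟨p ++ [x] ++ pre', segs', post' ++ q ++ post, ?_, i2, i3⟩
        rw [h1, hpq, i1]
        simp

/-- the step of a segment: the first digit is free, the others are fixed -/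
def segStep : Prog S → (Bool → Bool → S → S)
  | [] => fun _ _ s => s
  | t :: g => fun i j s => E g (t i j s)

omit [Finite S] in
theorem usim_seg (g : Prog S) (hg : g ≠ []) : USim g [segStep g] := by
  cases g with
  | nil => exact absurd rfl hg
  | cons t g =>
    refine USim.block _ _ (fun i => i :: List.replicate g.length false) (fun i => by simp)
      (by simp) fun i j r => ?_
    exact ev_false g _

omit [Finite S] in
theorem usim_segs (segs : List (Prog S)) (h : ∀ g ∈ segs, g ≠ []) :
    USim segs.flatten (segs.map segStep) := by
  induction segs with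
  | nil => exact USim.refl _
  | cons g segs ih =>
    exact USim.append (l₁' := [segStep g]) (usim_seg g (h g List.mem_cons_self))
      (ih fun g hg => h g (List.mem_cons_of_mem _ hg))

omit [Finite S] in
theorem E_segs (segs : List (Prog S)) (h : ∀ g ∈ segs, g ≠ []) :
    E (segs.map segStep) = E segs.flatten := by
  induction segs with
  | nil => rfl
  | cons g segs ih =>
    have ih' := ih fun g hg => h g (List.mem_cons_of_mem _ hg)
    cases g with
    | nil => exact absurd rfl (h [] List.mem_cons_self)
    | cons t g =>
      funext s
      rw [List.flatten_cons, E_append, ← ih']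
      rfl

/-- **From stable segments to trivial diagonal maps.** -/
theorem sim_of_stable (segs : List (Prog S)) (hs : Stable segs) (hdiag : Diag segs.flatten)
    (n : ℕ) (hn : segs.length = n + 1) (s : S) :
    ∃ (Y : Set S) (l' : Prog Y) (y : Y), l'.length = n ∧
      (∀ t ∈ l', t false false = id ∧ t true true = id) ∧ Sim segs.flatten s l' y := by
  cases segs with
  | nil => simp at hn
  | cons g₁ segs =>
    simp only [List.length_cons, Nat.add_right_cancel_iff] at hn
    set Y : Set S := Set.range (E (g₁ :: segs).flatten) with hY
    have hne : ∀ g ∈ segs, g ≠ [] := fun g hg => (hs g (List.mem_cons_of_mem _ hg)).1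
    have hne1 : g₁ ≠ [] := (hs g₁ List.mem_cons_self).1
    have hflat : (g₁ :: segs).flatten = g₁ ++ segs.flatten := List.flatten_cons
    have hEtot : E (g₁ :: segs).flatten = E segs.flatten ∘ E g₁ := by
      funext s
      rw [hflat, E_append]
      rfl
    have hYcard : Y.ncard = rk (E (g₁ :: segs).flatten) := rfl
    -- ranks
    have hrank : ∀ g ∈ g₁ :: segs, rk (E g) = Y.ncard := by
      intro g hg
      obtain ⟨hg0, hg1⟩ := hs g hg
      obtain ⟨p, q, hpq⟩ := mem_flatten_factor _ _ hg
      refine le_antisymm ?_ ?_
      · rw [hYcard, ← hg1]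
        cases g with
        | nil => exact absurd rfl hg0
        | cons t g =>
          have : rk (E ([t] ++ g ++ [])) ≤ rk (E g) := rk_factor [t] g []
          simpa using this
      · rw [hYcard, hpq]
        exact rk_factor _ _ _
    set l : Prog S := segs.map segStep with hl
    have hEl : E l = E segs.flatten := E_segs segs hne
    have hdiag' : Diag l := by
      intro t ht
      obtain ⟨g, hg, rfl⟩ := List.mem_map.1 ht
      cases g with
      | nil => rfl
      | cons t g =>
        funext s
        have h1 : t true true = t false false := by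
          refine hdiag t ?_
          rw [hflat]
          refine List.mem_append_right _ (List.mem_flatten.2 ⟨t :: g, hg, List.mem_cons_self⟩)
        change E g (t true true s) = E g (t false false s)
        rw [h1]
    have hst : ∀ t ∈ l, rk (t false false) = Y.ncard ∧
        ∀ i j s, t i j s ∈ Set.range (t false false) := by
      intro t ht
      obtain ⟨g, hg, rfl⟩ := List.mem_map.1 ht
      have hgr := hrank g (List.mem_cons_of_mem _ hg)
      obtain ⟨hg0, hg1⟩ := hs g (List.mem_cons_of_mem _ hg)
      cases g with
      | nil => exact absurd rfl hg0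
      | cons t g =>
        refine ⟨hgr, fun i j s => ?_⟩
        have hsub : Set.range (segStep (t :: g) false false) ⊆ Set.range (E g) := by
          rintro _ ⟨a, rfl⟩
          exact ⟨t false false a, rfl⟩
        have heq : Set.range (segStep (t :: g) false false) = Set.range (E g) := by
          refine Set.eq_of_subset_of_ncard_le hsub ?_ (Set.toFinite _)
          change rk (E g) ≤ rk (E (t :: g))
          rw [hgr, hYcard]
          exact le_of_eq hg1
        rw [heq]
        exact ⟨t i j s, rfl⟩
    have hbij : Set.BijOn (E l) (Set.range (E g₁)) Y := by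
      have himg : E l '' Set.range (E g₁) = Y := by
        rw [hY, hEl, hEtot, Set.range_comp]
      have hcard : (E l '' Set.range (E g₁)).ncard = (Set.range (E g₁)).ncard := by
        rw [himg]
        exact (hrank g₁ List.mem_cons_self).symm
      have hinj := Set.injOn_of_ncard_image_eq hcard (Set.toFinite _)
      rw [← himg]
      exact hinj.bijOn_image
    obtain ⟨l', h1, h2, h3⟩ := gauge Y l hdiag' hst _ hbij
    have hy : E l (E g₁ s) ∈ Y := hbij.mapsTo ⟨s, rfl⟩
    refine ⟨Y, l', ⟨_, hy⟩, ?_, h2, ?_⟩
    · rw [h1, hl, List.length_map, hn]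
    · have s1 : Sim (g₁ ++ segs.flatten ++ []) s segs.flatten (E g₁ s) := Sim.mid _ _ _ _
      rw [List.append_nil, ← hflat] at s1
      have s2 : Sim segs.flatten (E g₁ s) l (E g₁ s) := (usim_segs segs hne).sim _
      refine (s1.trans s2).trans ?_
      refine ⟨id, Subtype.val, fun u hu => ?_, fun u v _ _ h => h, fun u v hu hv => ?_⟩
      · rw [← h1]; exact hu
      · exact h3 _ ⟨s, rfl⟩ _ rfl u v (by rw [← h1]; exact hu) (by rw [← h1]; exact hv)

end

end Pool.Agent.H64.BW
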