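import Pool.Agent.H64.BW.Main
import Pool.Agent.H184R3.ES

/-!
# Homogeneous sets
-/

set_option autoImplicit false

open Function

namespace Pool.Agent.H64.BW

/-- words of length `N` -/
abbrev Wd (N : ℕ) := {l : List Bool // l.length = N}

noncomputable instance (N : ℕ) : Fintype (Wd N) :=
  inferInstanceAs (Fintype (List.Vector Bool N))

theorem card_Wd (N : ℕ) : Fintype.card (Wd N) = 2 ^ N := by
  have := card_vector (α := Bool) N
  rw [Fintype.card_bool] at this
  exact this

theorem lt_iff_red (u v : List Bool) (h : u.length = v.length) :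
    u < v ↔ (red u v).head? = some false := by
  induction u generalizing v with
  | nil =>
    have : v = [] := List.length_eq_zero_iff.1 h.symm
    subst this
    simp [red]
  | cons i u ih =>
    cases v with
    | nil => simp at h
    | cons j v =>
      simp only [List.length_cons, Nat.add_right_cancel_iff] at h
      rw [List.cons_lt_cons_iff]
      by_cases hij : i = j
      · subst hij
        simp only [red, if_true, lt_irrefl, false_or, true_and]
        exact ih v h
      · cases i <;> cases j <;> simp_all [red]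

theorem homog {S V : Type} (l : Prog S) (s : S) (n : ℕ) (h : Term l s (2 * n))
    (vx : List Bool → V)
    (hv : ∀ u v : List Bool, u.length = l.length → v.length = l.length → vx u = vx v → u = v)
    (ρ : V → ℕ) (hρ : Injective ρ) :
    ∃ (H : Finset V) (a : S), 2 ^ n ≤ H.card ∧ ∀ x ∈ H, ∀ y ∈ H, ρ x < ρ y →
      ∃ u v : List Bool, u.length = l.length ∧ v.length = l.length ∧ x = vx u ∧ y = vx v ∧
        ev l u v s = a := by
  classical
  obtain ⟨ι, A, B, a1, a2, a3⟩ := h
  let g : Wd (2 * n) → V := fun u => vx (ι u.1)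
  have hg : Injective g := by
    intro u v huv
    exact Subtype.ext (a2 _ _ u.2 v.2 (hv _ _ (a1 _ u.2) (a1 _ v.2) huv))
  have hf : Injective fun u => ρ (g u) := hρ.comp hg
  have hcard : (2 ^ n - 1) * (2 ^ n - 1) < Fintype.card (Wd (2 * n)) := by
    rw [card_Wd, two_mul, pow_add]
    have : 0 < 2 ^ n := Nat.two_pow_pos n
    exact Nat.mul_lt_mul_of_lt_of_le (by omega) (by omega) this
  have key : ∀ t : Finset (Wd (2 * n)), 2 ^ n - 1 < t.card → 2 ^ n ≤ (t.image g).card := by
    intro t ht
    rw [Finset.card_image_of_injective _ hg]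
    omega
  rcases Pool.Agent.H184R3.ES.erdos_szekeres hcard hf with ⟨t, ht, hm⟩ | ⟨t, ht, hm⟩
  · refine ⟨t.image g, A, key t ht, fun x hx y hy hxy => ?_⟩
    obtain ⟨u, hu, rfl⟩ := Finset.mem_image.1 hx
    obtain ⟨v, hv', rfl⟩ := Finset.mem_image.1 hy
    have huv : u < v := by
      rcases lt_trichotomy u v with h | h | h
      · exact h
      · subst h; exact absurd hxy (lt_irrefl _)
      · exact absurd (hm hv' hu h) (not_lt.2 hxy.le)
    have hne : u.1 ≠ v.1 := fun h => huv.ne (Subtype.ext h)
    refine ⟨_, _, a1 _ u.2, a1 _ v.2, rfl, rfl, ?_⟩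
    rw [a3 _ _ u.2 v.2 hne, if_pos]
    exact (lt_iff_red _ _ (u.2.trans v.2.symm)).1 huv
  · refine ⟨t.image g, B, key t ht, fun x hx y hy hxy => ?_⟩
    obtain ⟨u, hu, rfl⟩ := Finset.mem_image.1 hx
    obtain ⟨v, hv', rfl⟩ := Finset.mem_image.1 hy
    have huv : ¬ u < v := fun h => absurd (hm hu hv' h) (not_lt.2 hxy.le)
    have hne : u.1 ≠ v.1 := by
      intro h
      have : u = v := Subtype.ext h
      subst this
      exact absurd hxy (lt_irrefl _)
    refine ⟨_, _, a1 _ u.2, a1 _ v.2, rfl, rfl, ?_⟩
    rw [a3 _ _ u.2 v.2 hne, if_neg]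
    intro h
    exact huv ((lt_iff_red _ _ (u.2.trans v.2.symm)).2 h)

end Pool.Agent.H64.BW
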