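import Pool.Agent.H64.BW.Gauge

/-!
# Large families of words on which the last state is determined by the first difference
-/

set_option autoImplicit false

open Function

namespace Pool.Agent.H64.BW

theorem Term.of_sim {R R' : Type} {l : Prog R} {r : R} {l' : Prog R'} {r' : R'} {n : ℕ}
    (h : Sim l r l' r') (h' : Term l' r' n) : Term l r n := by
  obtain ⟨ι, p, a1, a2, a3⟩ := h
  obtain ⟨κ, A, B, b1, b2, b3⟩ := h'
  refine ⟨ι ∘ κ, p A, p B, fun u hu => a1 _ (b1 u hu), fun u v hu hv h => ?_,
    fun u v hu hv huv => ?_⟩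
  · exact b2 u v hu hv (a2 _ _ (b1 u hu) (b1 v hv) h)
  · refine (a3 _ _ (b1 u hu) (b1 v hv)).trans ?_
    rw [b3 u v hu hv huv]
    split_ifs <;> rfl

/-- the trivial family -/
theorem Term.zero {R : Type} (l : Prog R) (r : R) : Term l r 0 := by
  refine ⟨fun _ => List.replicate l.length false, r, r, fun u _ => by simp,
    fun u v hu hv _ => ?_, fun u v hu hv huv => ?_⟩
  · rw [List.length_eq_zero_iff.1 hu, List.length_eq_zero_iff.1 hv]
  · rw [List.length_eq_zero_iff.1 hu, List.length_eq_zero_iff.1 hv] at huv
    exact absurd rfl huv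

/-- pigeonhole for lists -/
theorem exists_count {A : Type} [Finite A] [DecidableEq A] (l : List A) (N : ℕ) (hN : 0 < N)
    (h : Nat.card A * N ≤ l.length) (hA : 0 < l.length) : ∃ a, N ≤ l.count a := by
  classical
  have := Fintype.ofFinite A
  by_contra hcon
  push Not at hcon
  have h1 : ∑ a : A, (l : Multiset A).count a = Multiset.card (l : Multiset A) :=
    Multiset.sum_count_eq_card fun a _ => Finset.mem_univ a
  simp only [Multiset.coe_count, Multiset.coe_card] at h1
  have h2 : ∑ a : A, l.count a ≤ ∑ _a : A, (N - 1) :=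
    Finset.sum_le_sum fun a _ => by have := hcon a; omega
  rw [Finset.sum_const, Finset.card_univ, smul_eq_mul, ← Nat.card_eq_fintype_card] at h2
  have h3 : 0 < Nat.card A := by
    have : Nonempty A := ⟨l[0]⟩
    exact Nat.card_pos
  have h4 : Nat.card A * (N - 1) < Nat.card A * N :=
    Nat.mul_lt_mul_of_pos_left (by omega) h3
  omega

/-- **Trivial diagonal maps.** -/
theorem term_trivial (R : Type) [Finite R] : ∃ K : ℕ, ∀ (l : Prog R),
    (∀ t ∈ l, t false false = id ∧ t true true = id) → ∀ (n : ℕ) (r : R), K * n ≤ l.length →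
    Term l r n := by
  classical
  obtain ⟨o, ho, hidem⟩ := exists_idem_all R
  choose z hz0 hz using fun c : Bool → Bool → R → R => exists_good c
  obtain ⟨L, hL⟩ : ∃ L : ℕ, ∀ c : Bool → Bool → R → R, (z c).length ≤ L := by
    obtain ⟨L, hL⟩ := (Set.finite_range fun c : Bool → Bool → R → R => (z c).length).bddAbove
    exact ⟨L, fun c => hL ⟨c, rfl⟩⟩
  refine ⟨Nat.card (Bool → Bool → R → R) * (o * 2 * (L + 1)), fun l hl n r hn => ?_⟩
  rcases Nat.eq_zero_or_pos n with h0 | hpos
  · subst h0
    exact Term.zero l r
  have hne : Nonempty R := ⟨r⟩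
  have hcardpos : 0 < Nat.card (Bool → Bool → R → R) := by
    have : Nonempty (Bool → Bool → R → R) := ⟨fun _ _ => id⟩
    exact Nat.card_pos
  have hNpos : 0 < o * 2 * (L + 1) * n := by positivity
  have hn' : Nat.card (Bool → Bool → R → R) * (o * 2 * (L + 1) * n) ≤ l.length := by
    rw [← mul_assoc]; exact hn
  obtain ⟨c, hc⟩ := exists_count l (o * 2 * (L + 1) * n) hNpos hn' (by
    refine lt_of_lt_of_le (Nat.mul_pos hcardpos hNpos) hn')
  have hmem : c ∈ l := List.count_pos_iff.1 (by omega)
  obtain ⟨hc0, hc1⟩ := hl c hmem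
  have s1 : USim l (List.replicate (l.count c) c) := usim_filter l (fun t ht => (hl t ht).1) c
  have hle : o * (2 * n) * (z c).length ≤ l.count c := by
    refine le_trans ?_ hc
    have : (z c).length ≤ L + 1 := (hL c).trans (Nat.le_succ _)
    calc o * (2 * n) * (z c).length ≤ o * (2 * n) * (L + 1) := Nat.mul_le_mul_left _ this
      _ = o * 2 * (L + 1) * n := by ring
  have s2 := usim_replicate_le c hc0 hle
  have s3 := usim_group c (sup c (z c)) (z c).length (usim_sup c hc0 hc1 (z c) (hz0 c))
    (o * (2 * n))
  exact Term.of_sim ((s1.trans (s2.trans s3)).sim r) (term_good (hz c) ho hidem n r)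

/-- **Stable segments.** -/
theorem term_stable (S : Type) [Finite S] : ∃ K : ℕ, ∀ (segs : List (Prog S)), Stable segs →
    Diag segs.flatten → ∀ (n : ℕ) (s : S), K * n + 1 ≤ segs.length → Term segs.flatten s n := by
  choose K hK using fun Y : Set S => term_trivial Y
  obtain ⟨L, hL⟩ : ∃ L : ℕ, ∀ Y : Set S, K Y ≤ L := by
    obtain ⟨L, hL⟩ := (Set.finite_range K).bddAbove
    exact ⟨L, fun c => hL ⟨c, rfl⟩⟩
  refine ⟨L, fun segs hs hd n s hn => ?_⟩
  obtain ⟨k, hk⟩ : ∃ k, segs.length = k + 1 := ⟨segs.length - 1, by omega⟩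
  obtain ⟨Y, l', y, h1, h2, h3⟩ := sim_of_stable segs hs hd k hk s
  refine Term.of_sim h3 (hK Y l' h2 n y ?_)
  have := Nat.mul_le_mul_right n (hL Y)
  omega

/-- the first step: blocks with two words which have the same diagonal map -/
theorem exists_pair {S : Type} [Finite S] (l : Prog S) (hl : l.length = Nat.card (S → S)) :
    ∃ a b : List Bool, a ≠ b ∧ a.length = l.length ∧ b.length = l.length ∧
      ∀ s, ev l a a s = ev l b b s := by
  classical
  have := Fintype.ofFinite S
  have hcard : Nat.card (S → S) < 2 ^ Nat.card (S → S) := Nat.lt_two_pow_self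
  have h1 : Fintype.card (S → S) < Fintype.card (List.Vector Bool l.length) := by
    rw [card_vector, Fintype.card_bool, hl, ← Nat.card_eq_fintype_card]
    exact hcard
  obtain ⟨a, b, hab, h⟩ := Fintype.exists_ne_map_eq_of_card_lt
    (fun a : List.Vector Bool l.length => fun s => ev l a.1 a.1 s) h1
  exact ⟨a.1, b.1, fun h => hab (Subtype.ext h), a.2, b.2, fun s => congrFun h s⟩

/-- the step of a block -/
def blockStep {S : Type} (l : Prog S) (a : Bool → List Bool) : Bool → Bool → S → S :=
  fun i j => ev l (a i) (a j)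

theorem exists_block {S : Type} [Finite S] (l : Prog S) (hl : l.length = Nat.card (S → S)) :
    ∃ t : Bool → Bool → S → S, USim l [t] ∧ t true true = t false false ∧
      ∃ a : List Bool, a.length = l.length ∧ t false false = ev l a a := by
  obtain ⟨a, b, hab, ha, hb, h⟩ := exists_pair l hl
  refine ⟨blockStep l fun i => if i then b else a, ?_, ?_, a, ha, ?_⟩
  · refine USim.block _ _ (fun i => if i then b else a) ?_ ?_ fun i j r => rfl
    · intro i; cases i <;> simp [ha, hb]
    · simpa using hab
  · funext s
    simpa [blockStep] using (h s).symm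
  · funext s
    simp [blockStep]

/-- the program of the blocks -/
theorem exists_blocks {S : Type} [Finite S] (segs : List (Prog S))
    (hs : ∀ g ∈ segs, g.length = Nat.card (S → S)) :
    ∃ l : Prog S, l.length = segs.length ∧ Diag l ∧ USim segs.flatten l ∧
      ∀ t ∈ l, ∃ g ∈ segs, ∃ a : List Bool, a.length = g.length ∧ t false false = ev g a a := by
  induction segs with
  | nil => exact ⟨[], rfl, by intro t ht; simp at ht, USim.refl _, by simp⟩
  | cons g segs ih =>
    obtain ⟨l, h1, h2, h3, h4⟩ := ih fun g hg => hs g (List.mem_cons_of_mem _ hg)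
    obtain ⟨t, t1, t2, a, ha, hta⟩ := exists_block g (hs g List.mem_cons_self)
    refine ⟨t :: l, by simp [h1], ?_, USim.append (l₁' := [t]) t1 h3, ?_⟩
    · intro t' ht'
      rcases List.mem_cons.1 ht' with h | h
      · subst h; exact t2
      · exact h2 t' h
    · intro t' ht'
      rcases List.mem_cons.1 ht' with h | h
      · subst h
        exact ⟨g, List.mem_cons_self, a, ha, hta⟩
      · obtain ⟨g', hg', r⟩ := h4 t' h
        exact ⟨g', List.mem_cons_of_mem _ hg', r⟩

theorem fl_le (n d : ℕ) (hn : 1 ≤ n) : fl n d ≤ (d + 2) * n ^ (d + 1) := by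
  induction d with
  | zero => simp [fl, mul_comm]
  | succ d ih =>
    rw [fl]
    have h1 : 1 ≤ n ^ (d + 1) := Nat.one_le_pow _ _ hn
    calc n * (fl n d + 1) ≤ n * ((d + 2) * n ^ (d + 1) + n ^ (d + 1)) :=
          Nat.mul_le_mul_left _ (by omega)
      _ = (d + 1 + 2) * n ^ (d + 1 + 1) := by ring

/-- **Main theorem**, lists of digits. -/
theorem term_main (S : Type) [Finite S] : ∃ K : ℕ,
    (∀ (l : Prog S) (n : ℕ) (s : S), K * n ^ Nat.card S ≤ l.length → Term l s n) ∧
    (∀ (l : Prog S) (n : ℕ) (s : S), (∀ t ∈ l, ∀ i, Bijective (t i i)) → K * n ≤ l.length →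
      Term l s n) ∧
    (∀ (l : Prog S) (n : ℕ) (s : S), (∀ t ∈ l, ∀ t' ∈ l, t = t') → K * n ≤ l.length →
      Term l s n) := by
  classical
  obtain ⟨K, hK⟩ := term_stable S
  obtain ⟨o, ho, hidem⟩ := exists_idem_all S
  set L := Nat.card (S → S) with hL
  set w := Nat.card S with hw
  -- the reduction to blocks
  have red1 : ∀ (l : Prog S) (N : ℕ), L * N ≤ l.length → ∃ (segs : List (Prog S)) (post : Prog S),
      l = segs.flatten ++ post ∧ segs.length = N ∧ ∀ g ∈ segs, g.length = L := by
    intro l N h
    exact split_segs L N l (by rw [mul_comm]; exact h)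
  have fin1 : ∀ (l : Prog S) (s : S) (n : ℕ) (segs : List (Prog S)) (post l1 : Prog S),
      l = segs.flatten ++ post → USim segs.flatten l1 → Diag l1 →
      (∃ (pre : Prog S) (sg : List (Prog S)) (post : Prog S), l1 = pre ++ sg.flatten ++ post ∧
        K * n + 1 ≤ sg.length ∧ Stable sg) → Term l s n := by
    rintro l s n segs post l1 h1 h2 h3 ⟨pre, sg, post', h4, h5, h6⟩
    have s1 : Sim ([] ++ segs.flatten ++ post) s segs.flatten (E [] s) := Sim.mid _ _ _ _
    rw [List.nil_append, ← h1] at s1
    have s2 : Sim segs.flatten s l1 s := h2.sim s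
    have s3 : Sim (pre ++ sg.flatten ++ post') s sg.flatten (E pre s) := Sim.mid _ _ _ _
    rw [← h4] at s3
    refine Term.of_sim ((s1.trans s2).trans s3) (hK sg h6 ?_ n _ h5)
    intro t ht
    exact h3 t (by rw [h4]; simp [ht])
  refine ⟨(w + 1) * (K + 1) ^ w * L + L * ((K + 1) * 2) + L * ((K + 1) * (o + 1)), ?_, ?_, ?_⟩
  · intro l n s hl
    rcases Nat.eq_zero_or_pos n with h0 | hpos
    · subst h0
      exact Term.zero l s
    have hwpos : 0 < w := by
      have : Nonempty S := ⟨s⟩
      exact Nat.card_pos
    obtain ⟨d, hd⟩ : ∃ d, w = d + 1 := ⟨w - 1, by omega⟩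
    obtain ⟨segs, post, h1, h2, h3⟩ := red1 l (fl (K * n + 1) d) (by
      refine le_trans ?_ hl
      have hb := fl_le (K * n + 1) d (by omega)
      have hc : K * n + 1 ≤ (K + 1) * n := by rw [Nat.succ_mul]; omega
      calc L * fl (K * n + 1) d ≤ L * ((d + 2) * (K * n + 1) ^ (d + 1)) :=
            Nat.mul_le_mul_left _ hb
        _ ≤ L * ((d + 2) * ((K + 1) * n) ^ (d + 1)) :=
            Nat.mul_le_mul_left _ (Nat.mul_le_mul_left _ (Nat.pow_le_pow_left hc _))
        _ = (w + 1) * (K + 1) ^ w * L * n ^ w := by
            rw [hd, mul_pow]; ring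
        _ ≤ _ := Nat.mul_le_mul_right _ (by
            rw [Nat.add_assoc]; exact Nat.le_add_right _ _))
    obtain ⟨l1, i1, i2, i3, i4⟩ := exists_blocks segs h3
    obtain ⟨pre, sg, post', j1, j2, j3⟩ := exists_stable (K * n + 1) d l1
      (by rw [i1, h2]) (by
        have : 1 ≤ rk (E l1) := by
          unfold rk
          exact (Set.ncard_pos (Set.toFinite _)).2 ⟨_, s, rfl⟩
        omega)
    exact fin1 l s n segs post l1 h1 i3 i2 ⟨pre, sg, post', j1, j2.ge, j3⟩
  · intro l n s hbij hl
    rcases Nat.eq_zero_or_pos n with h0 | hpos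
    · subst h0
      exact Term.zero l s
    obtain ⟨segs, post, h1, h2, h3⟩ := red1 l (fl (K * n + 1) 0) (by
      refine le_trans ?_ hl
      have hc : K * n + 1 ≤ (K + 1) * n := by rw [Nat.succ_mul]; omega
      calc L * ((K * n + 1) * 2) ≤ L * (((K + 1) * n) * 2) :=
            Nat.mul_le_mul_left _ (Nat.mul_le_mul_right _ hc)
        _ = L * ((K + 1) * 2) * n := by ring
        _ ≤ _ := Nat.mul_le_mul_right _ (by omega))
    obtain ⟨l1, i1, i2, i3, i4⟩ := exists_blocks segs h3
    have hb1 : ∀ (g : Prog S), (∀ t ∈ g, ∀ i, Bijective (t i i)) → ∀ a : List Bool,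
        a.length = g.length → Bijective (ev g a a) := by
      intro g
      induction g with
      | nil =>
        intro _ a _
        have : ev ([] : Prog S) a a = id := by funext s; exact ev_nil _ _ _
        rw [this]; exact bijective_id
      | cons t g ih =>
        intro h a ha
        cases a with
        | nil => simp at ha
        | cons i a =>
          simp only [List.length_cons, Nat.add_right_cancel_iff] at ha
          exact (ih (fun t ht => h t (List.mem_cons_of_mem _ ht)) a ha).comp
            (h t List.mem_cons_self i)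
    have hb2 : ∀ (g : Prog S), (∀ t ∈ g, Bijective (t false false)) → Bijective (E g) := by
      intro g
      induction g with
      | nil => intro _; exact bijective_id
      | cons t g ih =>
        intro h
        exact (ih fun t ht => h t (List.mem_cons_of_mem _ ht)).comp (h t List.mem_cons_self)
    have hb3 : Bijective (E l1) := by
      refine hb2 l1 fun t ht => ?_
      obtain ⟨g, hg, a, ha, hta⟩ := i4 t ht
      rw [hta]
      refine hb1 g (fun t' ht' => hbij t' ?_) a ha
      rw [h1]
      exact List.mem_append_left _ (List.mem_flatten.2 ⟨g, hg, ht'⟩)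
    obtain ⟨pre, sg, post', j1, j2, j3⟩ := exists_stable (K * n + 1) 0 l1
      (by rw [i1, h2]) (by
        unfold rk
        rw [hb3.surjective.range_eq, Set.ncard_univ]; rfl)
    exact fin1 l s n segs post l1 h1 i3 i2 ⟨pre, sg, post', j1, j2.ge, j3⟩
  · intro l n s hall hl
    rcases Nat.eq_zero_or_pos n with h0 | hpos
    · subst h0
      exact Term.zero l s
    set N := (K * n + 1) * (o + 1) with hN
    have hlen : N * L ≤ l.length := by
      refine le_trans ?_ hl
      have hc : K * n + 1 ≤ (K + 1) * n := by rw [Nat.succ_mul]; omega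
      calc N * L ≤ (((K + 1) * n) * (o + 1)) * L :=
            Nat.mul_le_mul_right _ (Nat.mul_le_mul_right _ hc)
        _ = L * ((K + 1) * (o + 1)) * n := by ring
        _ ≤ _ := Nat.mul_le_mul_right _ (by omega)
    have hLpos : 0 < L := by
      have : Nonempty (S → S) := ⟨id⟩
      exact Nat.card_pos
    have hNpos : 0 < N := by positivity
    have hlpos : 0 < l.length := lt_of_lt_of_le (Nat.mul_pos hNpos hLpos) hlen
    -- all steps are equal to `t0`
    set t0 := l[0] with ht0
    have hrep : l = List.replicate l.length t0 :=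
      List.eq_replicate_of_mem fun t ht => hall t ht t0 (List.getElem_mem _)
    obtain ⟨t, u1, u2, -⟩ := exists_block (List.replicate L t0) (by simp [hL])
    have u3 := usim_group t0 t L u1 N
    obtain ⟨k, hk⟩ := Nat.exists_eq_add_of_le hlen
    have hl' : l = [] ++ List.replicate (N * L) t0 ++ List.replicate k t0 := by
      rw [List.nil_append, ← List.replicate_add, ← hk]
      exact hrep
    have s1 : Sim ([] ++ List.replicate (N * L) t0 ++ List.replicate k t0) s
        (List.replicate (N * L) t0) (E [] s) := Sim.mid _ _ _ _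
    rw [← hl'] at s1
    have hEr : ∀ j : ℕ, E (List.replicate j t) = (t false false)^[j] := by
      intro j
      induction j with
      | zero => rfl
      | succ j ih =>
        funext r
        rw [Function.iterate_succ]
        exact congrFun ih _
    set e := t false false with he
    have hflat : (List.replicate (K * n + 1) (List.replicate (o + 1) t)).flatten =
        List.replicate N t := by
      rw [List.flatten_replicate_replicate]
    have hrk : rk (e^[o]) = rk (e^[N]) := by
      refine le_antisymm ?_ ?_
      · have h1 : e^[o] = e^[o * N] := by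
          rw [Function.iterate_mul]
          exact (idem_iter (hidem e) hNpos).symm
        have h2 : o * N = (o * N - N) + N := by
          have : N ≤ o * N := Nat.le_mul_of_pos_left N ho
          omega
        rw [h1, h2, Function.iterate_add]
        exact rk_comp_le_right _ _
      · have h2 : N = (N - o) + o := by
          have : o ≤ N := by
            rw [hN]
            calc o ≤ 1 * (o + 1) := by omega
              _ ≤ _ := Nat.mul_le_mul_right _ (by omega)
          omega
        rw [h2, Function.iterate_add]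
        exact rk_comp_le_right _ _
    have hstab : Stable (List.replicate (K * n + 1) (List.replicate (o + 1) t)) := by
      intro g hg
      have hg' := List.eq_of_mem_replicate hg
      subst hg'
      refine ⟨by simp [List.replicate_succ], ?_⟩
      rw [hflat, hEr, List.replicate_succ, List.tail_cons, hEr]
      exact hrk
    have hdt : Diag (List.replicate (K * n + 1) (List.replicate (o + 1) t)).flatten := by
      rw [hflat]
      intro t' ht'
      rw [List.eq_of_mem_replicate ht']
      exact u2
    have := hK _ hstab hdt n s (by simp)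
    rw [hflat] at this
    exact Term.of_sim (s1.trans (u3.sim _)) this

end Pool.Agent.H64.BW
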