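import Pool.Agent.H64.BW.Core

/-!
# The uniform case

If the step is the same everywhere and the diagonal maps are the identity, then there is an
exponential family of words on which the state after reading `x` and `y` only depends on the sign
of the first difference of `x` and `y`.
-/

set_option autoImplicit false

open Function

namespace Pool.Agent.H64.BW

section idem

variable {R : Type} [Finite R]

/-- the rank of a map -/
noncomputable def rk (f : R → R) : ℕ := (Set.range f).ncard

theorem rk_comp_le_left (f g : R → R) : rk (f ∘ g) ≤ rk f :=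
  Set.ncard_le_ncard (Set.range_comp_subset_range g f) (Set.toFinite _)

theorem rk_comp_le_right (f g : R → R) : rk (f ∘ g) ≤ rk g := by
  unfold rk
  rw [Set.range_comp]
  exact Set.ncard_image_le (Set.toFinite _)

omit [Finite R] in
theorem idem_iter {e : R → R} (he : e ∘ e = e) {m : ℕ} (hm : 0 < m) : e^[m] = e := by
  obtain ⟨m, rfl⟩ : ∃ k, m = k + 1 := ⟨m - 1, by omega⟩
  induction m with
  | zero => rfl
  | succ m ih => rw [Function.iterate_succ', ih (by omega), he]

theorem exists_idem (f : R → R) : ∃ k, 0 < k ∧ f^[k] ∘ f^[k] = f^[k] := by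
  obtain ⟨i, j, hij, h⟩ := Finite.exists_ne_map_eq_of_infinite (fun n : ℕ => f^[n])
  wlog hlt : i < j generalizing i j
  · exact this j i (Ne.symm hij) h.symm (by omega)
  obtain ⟨p, hp⟩ := Nat.exists_eq_add_of_lt hlt
  have hper : ∀ n, i ≤ n → f^[n + (p + 1)] = f^[n] := by
    intro n hn
    obtain ⟨q, rfl⟩ := Nat.exists_eq_add_of_le hn
    have e1 : i + q + (p + 1) = q + j := by omega
    have e2 : i + q = q + i := by omega
    rw [e1, e2, Function.iterate_add, Function.iterate_add]
    exact congrArg (fun g => f^[q] ∘ g) h.symm
  have hper2 : ∀ m n, i ≤ n → f^[n + (p + 1) * m] = f^[n] := by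
    intro m
    induction m with
    | zero => intro n _; rfl
    | succ m ih =>
      intro n hn
      have e1 : n + (p + 1) * (m + 1) = (n + (p + 1) * m) + (p + 1) := by ring
      rw [e1, hper _ (by omega), ih n hn]
  refine ⟨(p + 1) * (i + 1), by positivity, ?_⟩
  rw [← Function.iterate_add]
  refine hper2 (i + 1) _ ?_
  nlinarith

theorem exists_idem_all (R : Type) [Finite R] :
    ∃ o, 0 < o ∧ ∀ f : R → R, f^[o] ∘ f^[o] = f^[o] := by
  classical
  have := Fintype.ofFinite R
  choose k hk0 hk using fun f : R → R => exists_idem f
  refine ⟨∏ f : R → R, k f, Finset.prod_pos fun f _ => hk0 f, fun f => ?_⟩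
  have h1 : (∏ g : R → R, k g) = k f * ∏ g ∈ Finset.univ.erase f, k g :=
    (Finset.mul_prod_erase _ _ (Finset.mem_univ f)).symm
  have h2 : 0 < ∏ g ∈ Finset.univ.erase f, k g := Finset.prod_pos fun g _ => hk0 g
  have h3 : f^[∏ g : R → R, k g] = f^[k f] := by
    rw [h1, Function.iterate_mul]
    exact idem_iter (hk f) h2
  rw [h3]
  exact hk f

theorem idem_eq {α e : R → R} (h2 : e ∘ e = e) (h3 : α ∘ e = e)
    (h4 : e ∘ α = e) (h5 : rk e = rk α) : e = α := by
  have hsub : Set.range e ⊆ Set.range α := by
    rintro _ ⟨x, rfl⟩
    exact ⟨e x, congrFun h3 x⟩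
  have heq : Set.range e = Set.range α :=
    Set.eq_of_subset_of_ncard_le hsub (le_of_eq h5.symm) (Set.toFinite _)
  funext x
  have hx : α x ∈ Set.range e := heq ▸ ⟨x, rfl⟩
  obtain ⟨y, hy⟩ := hx
  have : e (α x) = α x := by
    rw [← hy]
    exact congrFun h2 y
  rw [← this]
  exact (congrFun h4 x).symm

end idem

section words

variable {R : Type}

/-- the map along the word `z` (`false`: smaller digit, `true`: larger digit) -/
def phi (c : Bool → Bool → R → R) : List Bool → R → R
  | [], r => r
  | i :: z, r => phi c z (c i (!i) r)

theorem phi_append (c : Bool → Bool → R → R) (z₁ z₂ : List Bool) :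
    phi c (z₁ ++ z₂) = phi c z₂ ∘ phi c z₁ := by
  induction z₁ with
  | nil => rfl
  | cons i z ih =>
    funext r
    exact congrFun ih _

theorem ev_phi (c : Bool → Bool → R → R) (z : List Bool) (r : R) :
    ev (List.replicate z.length c) z (z.map (!·)) r = phi c z r := by
  induction z generalizing r with
  | nil => rfl
  | cons i z ih => exact ih _

/-- the positions where two words differ -/
def red : List Bool → List Bool → List Bool
  | i :: u, j :: v => if i = j then red u v else i :: red u v
  | _, _ => []

theorem red_append (u₁ v₁ u₂ v₂ : List Bool) (h : u₁.length = v₁.length) :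
    red (u₁ ++ u₂) (v₁ ++ v₂) = red u₁ v₁ ++ red u₂ v₂ := by
  induction u₁ generalizing v₁ with
  | nil =>
    have : v₁ = [] := List.length_eq_zero_iff.1 h.symm
    subst this
    rfl
  | cons i u ih =>
    cases v₁ with
    | nil => simp at h
    | cons j v =>
      simp only [List.length_cons, Nat.add_right_cancel_iff] at h
      by_cases hij : i = j
      · simp only [List.cons_append, red, hij, if_true]
        exact ih v h
      · simp only [List.cons_append, red, hij, if_false]
        rw [ih v h]

theorem red_reverse (u v : List Bool) (h : u.length = v.length) :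
    red u.reverse v.reverse = (red u v).reverse := by
  induction u generalizing v with
  | nil =>
    have : v = [] := List.length_eq_zero_iff.1 h.symm
    subst this
    rfl
  | cons i u ih =>
    cases v with
    | nil => simp at h
    | cons j v =>
      simp only [List.length_cons, Nat.add_right_cancel_iff] at h
      rw [List.reverse_cons, List.reverse_cons, red_append _ _ _ _ (by simp [h]), ih v h]
      by_cases hij : i = j
      · simp [red, hij]
      · simp [red, hij]

theorem ev_red (c : Bool → Bool → R → R) (h0 : c false false = id) (h1 : c true true = id)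
    (u v : List Bool) (h : u.length = v.length) (r : R) :
    ev (List.replicate u.length c) u v r = phi c (red u v) r := by
  induction u generalizing v r with
  | nil => exact ev_nil _ _ _
  | cons i u ih =>
    cases v with
    | nil => simp at h
    | cons j v =>
      simp only [List.length_cons, Nat.add_right_cancel_iff] at h
      change ev (List.replicate u.length c) u v (c i j r) = _
      rw [ih v h]
      by_cases hij : i = j
      · have : c i j r = r := by
          subst hij
          cases i
          · rw [h0]; rfl
          · rw [h1]; rfl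
        rw [this]
        simp only [red, hij, if_true]
      · simp only [red, hij, if_false]
        have : j = !i := by cases i <;> cases j <;> simp_all
        rw [this]
        rfl

/-- repetition of a word -/
def rep : ℕ → List Bool → List Bool
  | 0, _ => []
  | n + 1, z => rep n z ++ z

theorem rep_length (n : ℕ) (z : List Bool) : (rep n z).length = n * z.length := by
  induction n with
  | zero => simp [rep]
  | succ n ih => rw [rep, List.length_append, ih, Nat.succ_mul]

theorem phi_rep (c : Bool → Bool → R → R) (n : ℕ) (z : List Bool) :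
    phi c (rep n z) = (phi c z)^[n] := by
  induction n with
  | zero => rfl
  | succ n ih => rw [rep, phi_append, ih, ← Function.iterate_succ']

theorem map_not_rep (n : ℕ) (z : List Bool) : (rep n z).map (!·) = rep n (z.map (!·)) := by
  induction n with
  | zero => rfl
  | succ n ih => rw [rep, List.map_append, ih]; rfl

theorem red_rep (n : ℕ) (u v : List Bool) (h : u.length = v.length) :
    red (rep n u) (rep n v) = rep n (red u v) := by
  induction n with
  | zero => rfl
  | succ n ih =>
    rw [rep, rep, rep, red_append _ _ _ _ (by rw [rep_length, rep_length, h]), ih]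

theorem map_not_not (z : List Bool) : (z.map (!·)).map (!·) = z := by
  rw [List.map_map]
  have : ((!·) ∘ (!·) : Bool → Bool) = id := by funext b; cases b <;> rfl
  rw [this, List.map_id]

theorem map_not_ne (z : List Bool) (hz : z ≠ []) : z ≠ z.map (!·) := by
  cases z with
  | nil => exact absurd rfl hz
  | cons i z => cases i <;> simp

end words

section super

variable {R : Type} [Finite R]

/-- the step of a superbit -/
def sup (c : Bool → Bool → R → R) (z : List Bool) : Bool → Bool → R → R := fun i j =>
  if i = j then id else if i then phi c (z.map (!·)) else phi c z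

omit [Finite R] in
theorem usim_sup (c : Bool → Bool → R → R) (h0 : c false false = id) (h1 : c true true = id)
    (z : List Bool) (hz : z ≠ []) : USim (List.replicate z.length c) [sup c z] := by
  have hE : ∀ (x : List Bool) (r : R), x.length = z.length →
      ev (List.replicate z.length c) x x r = r := by
    intro x r hx
    rw [← hx, ev_red c h0 h1 x x rfl]
    have : red x x = [] := by
      clear hx
      induction x with
      | nil => rfl
      | cons i x ih => simp [red, ih]
    rw [this]
    rfl
  refine USim.block _ _ (fun i => if i then z.map (!·) else z) ?_ ?_ ?_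
  · intro i
    cases i <;> simp
  · simpa using map_not_ne z hz
  · intro i j r
    cases i <;> cases j
    · simpa [sup] using hE z r rfl
    · simpa [sup] using ev_phi c z r
    · have := ev_phi c (z.map (!·)) r
      rw [map_not_not, List.length_map] at this
      simpa [sup] using this
    · simpa [sup] using hE (z.map (!·)) r (by simp)

/-- the properties of the superbits -/
structure Good (d : Bool → Bool → R → R) : Prop where
  ff : d false false = id
  tt : d true true = id
  i1 : d false true ∘ d false true = d false true
  i2 : d true false ∘ d true false = d true false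
  rk : ∃ r0, ∀ w, w ≠ [] → rk (phi d w) = r0

omit [Finite R] in
theorem phi_sup (c : Bool → Bool → R → R) (z : List Bool) (w : List Bool) :
    phi (sup c z) w = phi c (w.flatMap fun i => if i then z.map (!·) else z) := by
  induction w with
  | nil => rfl
  | cons i w ih =>
    rw [List.flatMap_cons, phi_append, ← ih]
    funext r
    cases i
    · change phi (sup c z) w (sup c z false true r) = _
      simp [sup]
    · change phi (sup c z) w (sup c z true false r) = _
      simp [sup]

/-- superbits exist -/
theorem exists_good (c : Bool → Bool → R → R) : ∃ z : List Bool, z ≠ [] ∧ Good (sup c z) := by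
  classical
  -- a word of least rank
  obtain ⟨z0, hz0, hmin⟩ : ∃ z0 : List Bool, z0 ≠ [] ∧
      ∀ w : List Bool, w ≠ [] → rk (phi c z0) ≤ rk (phi c w) := by
    let P : ℕ → Prop := fun n => ∃ z : List Bool, z ≠ [] ∧ rk (phi c z) = n
    have hP : ∃ n, P n := ⟨_, [false], by simp, rfl⟩
    obtain ⟨z, hz, hr⟩ := Nat.find_spec hP
    exact ⟨z, hz, fun w hw => by rw [hr]; exact Nat.find_min' hP ⟨w, hw, rfl⟩⟩
  obtain ⟨k1, hk1, hi1⟩ := exists_idem (phi c (z0 ++ z0.map (!·)))
  obtain ⟨k2, hk2, hi2⟩ := exists_idem (phi c (z0.map (!·) ++ z0))
  set z := rep (k1 * k2) (z0 ++ z0.map (!·)) with hz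
  have hkpos : 0 < k1 * k2 := Nat.mul_pos hk1 hk2
  have hzne : z ≠ [] := by
    intro h
    have h1 := congrArg List.length h
    rw [hz, rep_length, List.length_append, List.length_nil] at h1
    have : 0 < z0.length := List.length_pos_iff.2 hz0
    have : 0 < k1 * k2 * (z0.length + (z0.map (!·)).length) := by positivity
    omega
  have hzn : z.map (!·) = rep (k1 * k2) (z0.map (!·) ++ z0) := by
    rw [hz, map_not_rep, List.map_append, map_not_not]
  have hphi1 : phi c z = (phi c (z0 ++ z0.map (!·)))^[k1] := by
    rw [hz, phi_rep, Function.iterate_mul]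
    exact idem_iter hi1 hk2
  have hphi2 : phi c (z.map (!·)) = (phi c (z0.map (!·) ++ z0))^[k2] := by
    rw [hzn, phi_rep, mul_comm, Function.iterate_mul]
    exact idem_iter hi2 hk1
  -- `z0` is a factor of both words
  have hfac1 : ∃ p q, z = p ++ z0 ++ q := by
    obtain ⟨k, hk⟩ : ∃ k, k1 * k2 = k + 1 := ⟨k1 * k2 - 1, by omega⟩
    rw [hz, hk, rep]
    exact ⟨rep k (z0 ++ z0.map (!·)), z0.map (!·), by simp⟩
  have hfac2 : ∃ p q, z.map (!·) = p ++ z0 ++ q := by
    obtain ⟨k, hk⟩ : ∃ k, k1 * k2 = k + 1 := ⟨k1 * k2 - 1, by omega⟩
    rw [hzn, hk, rep]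
    exact ⟨rep k (z0.map (!·) ++ z0) ++ z0.map (!·), [], by simp⟩
  have hfacle : ∀ p q w : List Bool, w = p ++ z0 ++ q → rk (phi c w) ≤ rk (phi c z0) := by
    rintro p q w rfl
    rw [phi_append, phi_append]
    exact (rk_comp_le_right _ _).trans (rk_comp_le_left _ _)
  refine ⟨z, hzne, ?_, ?_, ?_, ?_, ⟨rk (phi c z0), fun w hw => ?_⟩⟩
  · simp [sup]
  · simp [sup]
  · simp only [sup, Bool.false_eq_true, if_false]
    rw [hphi1]
    exact hi1
  · simp only [sup, Bool.true_eq_false, if_false, if_true]
    rw [hphi2]
    exact hi2
  · rw [phi_sup]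
    cases w with
    | nil => exact absurd rfl hw
    | cons i w =>
      rw [List.flatMap_cons]
      have hne : (if i then z.map (!·) else z) ++
          (w.flatMap fun i => if i then z.map (!·) else z) ≠ [] := by
        intro h
        have h1 := (List.append_eq_nil_iff.1 h).1
        cases i
        · exact hzne (by simpa using h1)
        · exact hzne (by simpa using h1)
      refine le_antisymm ?_ (hmin _ hne)
      generalize (w.flatMap fun i => if i then z.map (!·) else z) = Z
      cases i
      · obtain ⟨p, q, hpq⟩ := hfac1
        refine hfacle p (q ++ Z) _ ?_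
        simp only [Bool.false_eq_true, if_false]
        rw [hpq, List.append_assoc _ _ Z]
      · obtain ⟨p, q, hpq⟩ := hfac2
        refine hfacle p (q ++ Z) _ ?_
        simp only [if_true]
        rw [hpq, List.append_assoc _ _ Z]

/-- the map along `(w w^R)^o` if `w` starts with `false` -/
theorem phi_pal_false {d : Bool → Bool → R → R} (hd : Good d) {o : ℕ} (ho : 0 < o)
    (hidem : ∀ f : R → R, f^[o] ∘ f^[o] = f^[o]) (w : List Bool) :
    phi d (rep o ((false :: w) ++ (false :: w).reverse)) = d false true := by
  obtain ⟨r0, hr0⟩ := hd.rk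
  set α := d false true with hα
  have hα1 : phi d [false] = α := rfl
  set W := phi d ((false :: w) ++ (false :: w).reverse) with hW
  have hWdef : W = α ∘ (phi d (w ++ w.reverse) ∘ α) := by
    have e1 : (false :: w) ++ (false :: w).reverse = [false] ++ ((w ++ w.reverse) ++ [false]) := by
      simp
    rw [hW, e1, phi_append, phi_append, hα1]
    rfl
  have hαW : α ∘ W = W := by
    rw [hWdef, ← Function.comp_assoc, hd.i1]
  have hWα : W ∘ α = W := by
    rw [hWdef, Function.comp_assoc, Function.comp_assoc, hd.i1]
  obtain ⟨k, rfl⟩ : ∃ k, o = k + 1 := ⟨o - 1, by omega⟩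
  rw [phi_rep, ← hW]
  refine idem_eq (hidem W) ?_ ?_ ?_
  · rw [Function.iterate_succ', ← Function.comp_assoc, hαW]
  · rw [Function.iterate_succ, Function.comp_assoc, hWα]
  · rw [hW, ← phi_rep, hr0 _ ?_, ← hα1, hr0 _ (by simp)]
    rw [rep]
    simp

theorem phi_pal_true {d : Bool → Bool → R → R} (hd : Good d) {o : ℕ} (ho : 0 < o)
    (hidem : ∀ f : R → R, f^[o] ∘ f^[o] = f^[o]) (w : List Bool) :
    phi d (rep o ((true :: w) ++ (true :: w).reverse)) = d true false := by
  obtain ⟨r0, hr0⟩ := hd.rk
  set α := d true false with hα
  have hα1 : phi d [true] = α := rfl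
  set W := phi d ((true :: w) ++ (true :: w).reverse) with hW
  have hWdef : W = α ∘ (phi d (w ++ w.reverse) ∘ α) := by
    have e1 : (true :: w) ++ (true :: w).reverse = [true] ++ ((w ++ w.reverse) ++ [true]) := by
      simp
    rw [hW, e1, phi_append, phi_append, hα1]
    rfl
  have hαW : α ∘ W = W := by
    rw [hWdef, ← Function.comp_assoc, hd.i2]
  have hWα : W ∘ α = W := by
    rw [hWdef, Function.comp_assoc, Function.comp_assoc, hd.i2]
  obtain ⟨k, rfl⟩ : ∃ k, o = k + 1 := ⟨o - 1, by omega⟩
  rw [phi_rep, ← hW]
  refine idem_eq (hidem W) ?_ ?_ ?_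
  · rw [Function.iterate_succ', ← Function.comp_assoc, hαW]
  · rw [Function.iterate_succ, Function.comp_assoc, hWα]
  · rw [hW, ← phi_rep, hr0 _ ?_, ← hα1, hr0 _ (by simp)]
    rw [rep]
    simp

/-- `Fin' l r n`: on a family of `2 ^ n` words of the program `l` the last state is `A` or `B`
according to the sign of the first difference -/
def Term {S : Type} (l : Prog S) (r : S) (n : ℕ) : Prop :=
  ∃ (ι : List Bool → List Bool) (A B : S),
    (∀ u, u.length = n → (ι u).length = l.length) ∧
    (∀ u v, u.length = n → v.length = n → ι u = ι v → u = v) ∧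
    ∀ u v, u.length = n → v.length = n → u ≠ v →
      ev l (ι u) (ι v) r = if (red u v).head? = some false then A else B

omit [Finite R] in
theorem red_ne_nil (u v : List Bool) (h : u.length = v.length) (hne : u ≠ v) : red u v ≠ [] := by
  induction u generalizing v with
  | nil => exact absurd (List.length_eq_zero_iff.1 h.symm).symm hne
  | cons i u ih =>
    cases v with
    | nil => simp at h
    | cons j v =>
      simp only [List.length_cons, Nat.add_right_cancel_iff] at h
      by_cases hij : i = j
      · subst hij
        simp only [red, if_true]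
        exact ih v h fun h2 => hne (by rw [h2])
      · simp [red, hij]

theorem term_good {d : Bool → Bool → R → R} (hd : Good d) {o : ℕ} (ho : 0 < o)
    (hidem : ∀ f : R → R, f^[o] ∘ f^[o] = f^[o]) (n : ℕ) (r : R) :
    Term (List.replicate (o * (2 * n)) d) r n := by
  have hlen : ∀ u : List Bool, u.length = n → (rep o (u ++ u.reverse)).length = o * (2 * n) := by
    intro u hu
    rw [rep_length, List.length_append, List.length_reverse, hu, two_mul]
  refine ⟨fun u => rep o (u ++ u.reverse), d false true r, d true false r, fun u hu => ?_,
    fun u v hu hv h => ?_, fun u v hu hv huv => ?_⟩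
  · rw [hlen u hu, List.length_replicate]
  · obtain ⟨k, rfl⟩ : ∃ k, o = k + 1 := ⟨o - 1, by omega⟩
    have h1 : rep k (u ++ u.reverse) ++ (u ++ u.reverse) =
        rep k (v ++ v.reverse) ++ (v ++ v.reverse) := h
    have h2 := (List.append_inj h1 (by simp [rep_length, hu, hv])).2
    exact (List.append_inj h2 (by rw [hu, hv])).1
  · have h1 : (rep o (u ++ u.reverse)).length = (rep o (v ++ v.reverse)).length := by
      rw [hlen u hu, hlen v hv]
    have h2 := ev_red d hd.ff hd.tt _ _ h1 r
    rw [hlen u hu] at h2
    rw [h2, red_rep _ _ _ (by simp [hu, hv]), red_append _ _ _ _ (by rw [hu, hv]),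
      red_reverse _ _ (by rw [hu, hv])]
    have h3 := red_ne_nil u v (by rw [hu, hv]) huv
    cases hr : red u v with
    | nil => exact absurd hr h3
    | cons i w =>
      cases i
      · rw [phi_pal_false hd ho hidem]
        simp
      · rw [phi_pal_true hd ho hidem]
        simp

end super

end Pool.Agent.H64.BW
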